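import Pool.Agent.W580.SH.StmB

/-!
SH-STEP: deletion of one row.
-/

set_option autoImplicit false

namespace Pool.Agent.W337.SH

open Pool.Agent.W580.SH

theorem step : S_STEP := by
  classical
  intro R _ _ S i τ h
  set S1 := S.filter fun x => x i = τ with hS1
  set S0 := S.filter fun x => x i = τ - 1 with hS0
  set A := S1.image (fun x => Function.update x i 0) with hA
  set B := S0.image (fun x => Function.update x i 0) with hB
  have hinj : ∀ x y : R → ℝ, x i = y i → Function.update x i 0 = Function.update y i 0 →
      x = y := by
    intro x y h1 h2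
    funext j
    by_cases hj : j = i
    · rw [hj, h1]
    · have h3 := congrFun h2 j
      rwa [Function.update_of_ne hj, Function.update_of_ne hj] at h3
  have cA : A.card = S1.card := by
    refine Finset.card_image_of_injOn fun x hx y hy hxy => hinj x y ?_ hxy
    rw [Finset.mem_coe, hS1, Finset.mem_filter] at hx hy
    rw [hx.2, hy.2]
  have cB : B.card = S0.card := by
    refine Finset.card_image_of_injOn fun x hx y hy hxy => hinj x y ?_ hxy
    rw [Finset.mem_coe, hS0, Finset.mem_filter] at hx hy
    rw [hx.2, hy.2]
  have hU : S = S1 ∪ S0 := by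
    ext x
    rw [Finset.mem_union, hS1, hS0, Finset.mem_filter, Finset.mem_filter]
    constructor
    · intro hx
      rcases h x hx with h1 | h1
      · exact Or.inl ⟨hx, h1⟩
      · exact Or.inr ⟨hx, h1⟩
    · rintro (h1 | h1)
      · exact h1.1
      · exact h1.1
  have hdisj : Disjoint S1 S0 := by
    rw [Finset.disjoint_left]
    intro x h1 h2
    rw [hS1, Finset.mem_filter] at h1
    rw [hS0, Finset.mem_filter] at h2
    linarith [h1.2, h2.2]
  have hcS : S.card = S1.card + S0.card := by
    conv_lhs => rw [hU]
    exact Finset.card_union_of_disjoint hdisj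
  have himg : S.image (fun x => Function.update x i 0) = A ∪ B := by
    conv_lhs => rw [hU]
    rw [Finset.image_union]
  refine ⟨A ∩ B, ?_, ?_⟩
  · ext z
    rw [Finset.mem_coe, Finset.mem_inter, hA, hB, Finset.mem_image, Finset.mem_image]
    constructor
    · rintro ⟨⟨x, hx, hxz⟩, ⟨y, hy, hyz⟩⟩
      rw [hS1, Finset.mem_filter] at hx
      rw [hS0, Finset.mem_filter] at hy
      refine ⟨?_, ?_, ?_⟩
      · rw [← hxz, Function.update_self]
      · rw [← hxz, Function.update_idem, ← hx.2, Function.update_eq_self]
        exact hx.1
      · rw [← hyz, Function.update_idem, ← hy.2, Function.update_eq_self]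
        exact hy.1
    · rintro ⟨h1, h2, h3⟩
      refine ⟨⟨Function.update z i τ, ?_, ?_⟩, ⟨Function.update z i (τ - 1), ?_, ?_⟩⟩
      · rw [hS1, Finset.mem_filter]
        exact ⟨h2, Function.update_self ..⟩
      · show Function.update (Function.update z i τ) i 0 = z
        rw [Function.update_idem, ← h1, Function.update_eq_self]
      · rw [hS0, Finset.mem_filter]
        exact ⟨h3, Function.update_self ..⟩
      · show Function.update (Function.update z i (τ - 1)) i 0 = z
        rw [Function.update_idem, ← h1, Function.update_eq_self]
  · rw [himg, hcS, ← cA, ← cB]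
    exact (Finset.card_union_add_card_inter A B).symm

/-- the main theorem -/
theorem main : S_STEP := step

end Pool.Agent.W337.SH
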